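import Pool.Agent.Q240.PM.Prob

/-!
# MP_32afb7: stable multi-matchings with odd degrees can percolate in dimension one

There is a degree law `μ` on the positive integers, with `μ(1) > 0` and all moments finite, for
which the stable multi-matching of the marked Poisson process on the line exists and has an
infinite component almost surely. So the equivalence of Q1 is false.
-/

namespace Pool.Agent.Results.MP_32afb7_pr.OddDegreesPercolate

open MeasureTheory Pool.Agent.Q240.PM
open scoped ENNReal

universe u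

theorem result : ∃ μ : PMF ℕ, μ 0 = 0 ∧ μ 1 ≠ 0 ∧
    (∀ q : ℕ, ∫⁻ n, (n : ℝ≥0∞) ^ q ∂μ.toMeasure < ⊤) ∧
    ∀ (Ω : Type u) (_ : MeasurableSpace Ω) (P : Measure Ω) (_ : IsProbabilityMeasure P)
      (V : Ω → Set ℝ) (D : Ω → ℝ → ℕ), IsMarkedPoisson P μ V D →
      ∀ᵐ ω ∂P, (∃ G : SimpleGraph (V ω), IsStable (V ω) (D ω) G) ∧
        ∀ G : SimpleGraph (V ω), IsStable (V ω) (D ω) G → HasInfiniteComponent G := by
  refine ⟨law, law_zero, law_one, law_moment, ?_⟩
  intro Ω _ P _ V D h
  filter_upwards [ae_good h] with ω hω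
  obtain ⟨x, K, hg⟩ := hω
  exact ⟨hg.exists_stable, fun G hG => hg.infinite_component hG⟩

end Pool.Agent.Results.MP_32afb7_pr.OddDegreesPercolate
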